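import Mathlib

/-!
# The equation `1/w + 1/x + 1/y + 1/z + 1/(wxyz) = 0`

Apart from the permutations of `(1, -1, t, 1 - t)` every solution in nonzero integers is bounded
in terms of any single one of its entries: with `q = |w| (|w| + 1)` the absolute values of the
other entries are at most `q ^ 2 + q + 1`, and this bound is attained for every value of `|w|`.
-/

namespace Pool.Agent.Results.MP_d45172_nt.SharpBoundOutsideFamily

/-- The core inequality, for the absolute values `A ≤ B ≤ C ≤ E` of the four entries, where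
`s = |a + b|` and `δ = |ab + ac + bc|`. -/
lemma core (A B C E δ s : ℤ) (hA : 1 ≤ A) (hAB : A ≤ B) (hBC : B ≤ C) (hCE : C ≤ E)
    (hδ : 1 ≤ δ) (hs : 1 ≤ s) (h1 : E * δ ≤ 1 + A * B * C) (h2 : s * C ≤ δ + A * B)
    (h3 : s = A + B ∨ s = B - A) :
    E ≤ (A * (A + 1)) ^ 2 + A * (A + 1) + 1 := by
  have hB : 1 ≤ B := le_trans hA hAB
  have hC : 1 ≤ C := le_trans hB hBC
  have hE : 1 ≤ E := le_trans hC hCE
  -- main inequality
  have hmain : s * (E * δ) ≤ s + A * B * (δ + A * B) := by
    have hAB0 : 0 ≤ A * B := by positivity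
    calc s * (E * δ) ≤ s * (1 + A * B * C) := mul_le_mul_of_nonneg_left h1 (by linarith)
      _ = s + A * B * (s * C) := by ring
      _ ≤ s + A * B * (δ + A * B) := by
          have := mul_le_mul_of_nonneg_left h2 hAB0
          linarith
  rcases h3 with h3 | h3
  · -- same sign
    have hBA : B = A := by
      by_contra hne
      have hlt : A + 1 ≤ B := by
        rcases lt_or_eq_of_le hAB with h | h
        · linarith
        · exact absurd h.symm hne
      have hC2 : 2 ≤ C := by linarith
      have hsB : s * B ≤ δ + A * B := le_trans (mul_le_mul_of_nonneg_left hBC (by linarith)) h2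
      have hδB : B * B ≤ δ := by rw [h3] at hsB; nlinarith
      have hCδ : C * δ ≤ 1 + A * B * C := le_trans (mul_le_mul_of_nonneg_right hCE (by linarith)) h1
      have hδle : δ ≤ A * B := by
        by_contra hcon
        have : A * B + 1 ≤ δ := by linarith
        have : C * (A * B + 1) ≤ C * δ := mul_le_mul_of_nonneg_left this (by linarith)
        nlinarith
      nlinarith
    subst hBA
    have hsB : s * B ≤ δ + B * B := le_trans (mul_le_mul_of_nonneg_left hBC (by linarith)) h2
    have hδB : B * B ≤ δ := by rw [h3] at hsB; nlinarith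
    -- s = 2B
    have hs2 : s = 2 * B := by linarith
    rw [hs2] at hmain
    have : 2 * B * (E * δ) ≤ 2 * B * δ + B * B * (δ + δ) := by
      have h5 : 2 * B ≤ 2 * B * δ := by nlinarith
      have h6 : B * B * (δ + B * B) ≤ B * B * (δ + δ) := by
        apply mul_le_mul_of_nonneg_left _ (by positivity)
        linarith
      linarith
    have h7 : (2 * B * δ) * E ≤ (2 * B * δ) * (1 + B) := by nlinarith
    have h8 : E ≤ 1 + B := le_of_mul_le_mul_left h7 (by positivity)
    nlinarith [sq_nonneg (B * (B + 1))]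
  · -- opposite sign
    have hBs : B = A + s := by linarith
    subst hBs
    rcases le_or_gt s A with hsA | hsA
    · by_contra hcon
      push Not at hcon
      have hcon' : (A * (A + 1)) ^ 2 + A * (A + 1) + 1 + 1 ≤ E := by linarith
      have hF0 : 0 ≤ (A * (A + 1)) ^ 2 + A * (A + 1) + 1 := by positivity
      set F := (A * (A + 1)) ^ 2 + A * (A + 1) + 1 with hF
      set P := A * (A + s) with hP
      have hP0 : 0 ≤ P := by positivity
      -- s (F+1) δ ≤ s + P δ + P^2
      have h5 : s * ((F + 1) * δ) ≤ s + P * (δ + P) := by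
        refine le_trans ?_ hmain
        apply mul_le_mul_of_nonneg_left _ (by linarith)
        exact mul_le_mul_of_nonneg_right hcon' (by linarith)
      have h6 : s + P * (δ + P) ≤ (s + P + P ^ 2) * δ := by
        have : s ≤ s * δ := by nlinarith
        have : P ^ 2 ≤ P ^ 2 * δ := by nlinarith [sq_nonneg P]
        nlinarith
      have h7 : s * (F + 1) ≤ s + P + P ^ 2 := by
        have : (s * (F + 1)) * δ ≤ (s + P + P ^ 2) * δ := by
          calc (s * (F + 1)) * δ = s * ((F + 1) * δ) := by ring
            _ ≤ _ := le_trans h5 h6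
        exact le_of_mul_le_mul_right this (by linarith)
      have h8 : P + P ^ 2 ≤ s * (A * (A + 1) + (A * (A + 1)) ^ 2) := by
        have h9 : s * (A * (A + 1) + (A * (A + 1)) ^ 2) - (P + P ^ 2)
            = A ^ 2 * ((s - 1) * (A ^ 2 - s + 1)) := by
          rw [hP]; ring
        have h10 : 0 ≤ (s - 1) * (A ^ 2 - s + 1) := by
          apply mul_nonneg (by linarith)
          nlinarith
        have h11 : 0 ≤ A ^ 2 * ((s - 1) * (A ^ 2 - s + 1)) := mul_nonneg (sq_nonneg A) h10
        linarith
      have h12 : s * F = s * (A * (A + 1) + (A * (A + 1)) ^ 2) + s := by rw [hF]; ring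
      nlinarith
    · have hsA' : A + 1 ≤ s := hsA
      have hsB : s * (A + s) ≤ δ + A * (A + s) :=
        le_trans (mul_le_mul_of_nonneg_left hBC (by linarith)) h2
      have hδB : A + s ≤ δ := by nlinarith
      -- (A(A+s))^2 ≤ A^2 (A+s) δ
      have h5 : A * (A + s) * (A * (A + s)) ≤ A ^ 2 * (A + s) * δ := by
        have : A ^ 2 * (A + s) * (A + s) ≤ A ^ 2 * (A + s) * δ :=
          mul_le_mul_of_nonneg_left hδB (by positivity)
        nlinarith
      have h6 : s * (E * δ) ≤ (s + A * (A + s) + A ^ 2 * (A + s)) * δ := by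
        have : s ≤ s * δ := by nlinarith
        nlinarith
      have h7 : s * E ≤ s + A * (A + s) + A ^ 2 * (A + s) := by
        have : (s * E) * δ ≤ (s + A * (A + s) + A ^ 2 * (A + s)) * δ := by
          calc (s * E) * δ = s * (E * δ) := by ring
            _ ≤ _ := h6
        exact le_of_mul_le_mul_right this (by linarith)
      have h8 : A * (A + s) ≤ 2 * A * s := by nlinarith
      have h9 : A ^ 2 * (A + s) ≤ 2 * A ^ 2 * s := by nlinarith [sq_nonneg A]
      have h10 : s * E ≤ s * (1 + 2 * A + 2 * A ^ 2) := by nlinarith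
      have h11 : E ≤ 1 + 2 * A + 2 * A ^ 2 := le_of_mul_le_mul_left h10 (by linarith)
      have h12 : A ≤ A ^ 4 + 2 * A ^ 3 := by
        have : 1 ≤ A ^ 3 := one_le_pow₀ hA
        nlinarith [sq_nonneg (A ^ 2)]
      nlinarith

/-- The third elementary symmetric function of four integers. -/
lemma esymm_three_list (a b c d : ℤ) :
    (([a, b, c, d] : List ℤ) : Multiset ℤ).esymm 3 = b * c * d + a * c * d + a * b * d + a * b * c := by
  have e0 : ∀ s : Multiset ℤ, s.esymm 0 = 1 := fun s => by simp [Multiset.esymm]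
  have ec : ∀ (a : ℤ) (s : Multiset ℤ) (k : ℕ),
      (a ::ₘ s).esymm (k + 1) = s.esymm (k + 1) + a * s.esymm k := fun a s k => by
    simp [Multiset.esymm, Multiset.powersetCard_cons, Multiset.map_map, Multiset.sum_map_mul_left]
  have ez : ∀ k : ℕ, (0 : Multiset ℤ).esymm (k + 1) = 0 := fun k => by
    simp [Multiset.esymm, Multiset.powersetCard_zero_right]
  have h : (([a, b, c, d] : List ℤ) : Multiset ℤ) = a ::ₘ b ::ₘ c ::ₘ d ::ₘ 0 := rfl
  rw [h]
  simp only [ec, e0, ez]
  ring

/-- The bound `q ^ 2 + q + 1` with `q = m (m + 1)`. -/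
def bound (m : ℤ) : ℤ := (m * (m + 1)) ^ 2 + m * (m + 1) + 1

lemma bound_mono {a b : ℤ} (ha : 0 ≤ a) (hab : a ≤ b) : bound a ≤ bound b := by
  unfold bound
  have h : a * (a + 1) ≤ b * (b + 1) := by nlinarith
  have h0 : 0 ≤ a * (a + 1) := by positivity
  have h2 : (a * (a + 1)) ^ 2 ≤ (b * (b + 1)) ^ 2 := pow_le_pow_left₀ h0 h 2
  linarith

/-- `(w, x, y, z)` is a permutation of `(1, -1, t, 1 - t)` for some integer `t`. -/
def InFamily (w x y z : ℤ) : Prop := ∃ t : ℤ, List.Perm [w, x, y, z] [1, -1, t, 1 - t]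

/-- The sorted case. -/
lemma sorted_case (a b c d : ℤ) (ha : a ≠ 0) (hab : |a| ≤ |b|) (hbc : |b| ≤ |c|)
    (hcd : |c| ≤ |d|) (h : b * c * d + a * c * d + a * b * d + a * b * c = -1) :
    (∃ t : ℤ, List.Perm [a, b, c, d] [1, -1, t, 1 - t]) ∨ |d| ≤ bound |a| := by
  have hA : 1 ≤ |a| := Int.one_le_abs ha
  by_cases hs : a + b = 0
  · left
    have hb : b = -a := by linarith
    subst hb
    have h1 : a * a * (c + d) = 1 := by nlinarith
    have h2 : a * (a * (c + d)) = 1 := by linarith [h1, mul_assoc a a (c + d)]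
    have h3 : a = 1 ∨ a = -1 := by
      rcases Int.eq_one_or_neg_one_of_mul_eq_one h2 with h | h
      · exact Or.inl h
      · exact Or.inr h
    rcases h3 with h3 | h3
    · subst h3
      refine ⟨c, ?_⟩
      have : d = 1 - c := by linarith
      subst this
      exact List.Perm.refl _
    · subst h3
      refine ⟨c, ?_⟩
      have : d = 1 - c := by linarith
      subst this
      exact List.Perm.swap _ _ _
  · right
    have hs1 : 1 ≤ |a + b| := Int.one_le_abs hs
    have hD : a * b + a * c + b * c ≠ 0 := by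
      intro h0
      have h1 : a * b * c = -1 := by
        have : (a * b + a * c + b * c) * d + a * b * c = -1 := by linarith
        rw [h0] at this
        linarith
      have h2 : a * (b * c) = -1 := by linarith [mul_assoc a b c]
      have h3 : a = 1 ∨ a = -1 := by
        have : (-a) * (b * c) = 1 := by linarith
        rcases Int.eq_one_or_neg_one_of_mul_eq_one this with h | h
        · right; linarith
        · left; linarith
      have h4 : b = 1 ∨ b = -1 := by
        have : b * (-(a * c)) = 1 := by linarith [h1, mul_comm (b * c) a]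
        exact Int.eq_one_or_neg_one_of_mul_eq_one this
      have h5 : c = 1 ∨ c = -1 := by
        have : c * (-(a * b)) = 1 := by linarith [h1]
        exact Int.eq_one_or_neg_one_of_mul_eq_one this
      rcases h3 with rfl | rfl <;> rcases h4 with rfl | rfl <;> rcases h5 with rfl | rfl <;>
        norm_num at h0
    have hδ : 1 ≤ |a * b + a * c + b * c| := Int.one_le_abs hD
    have h1 : |d| * |a * b + a * c + b * c| ≤ 1 + |a| * |b| * |c| := by
      rw [← abs_mul]
      have : d * (a * b + a * c + b * c) = -(1 + a * b * c) := by linarith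
      rw [this, abs_neg]
      calc |1 + a * b * c| ≤ |1| + |a * b * c| := abs_add_le _ _
        _ = 1 + |a| * |b| * |c| := by rw [abs_one, abs_mul, abs_mul]
    have h2 : |a + b| * |c| ≤ |a * b + a * c + b * c| + |a| * |b| := by
      rw [← abs_mul, ← abs_mul]
      have : (a + b) * c = (a * b + a * c + b * c) + -(a * b) := by ring
      rw [this]
      calc |(a * b + a * c + b * c) + -(a * b)|
          ≤ |a * b + a * c + b * c| + |-(a * b)| := abs_add_le _ _
        _ = _ := by rw [abs_neg]
    have h3 : |a + b| = |a| + |b| ∨ |a + b| = |b| - |a| := by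
      rcases abs_cases a with ⟨h1, h1'⟩ | ⟨h1, h1'⟩ <;>
      rcases abs_cases b with ⟨h2, h2'⟩ | ⟨h2, h2'⟩ <;>
      rcases abs_cases (a + b) with ⟨h3, h3'⟩ | ⟨h3, h3'⟩ <;>
      rw [h1, h2] at hab <;> rw [h1, h2, h3] <;> omega
    exact core |a| |b| |c| |d| _ _ hA hab hbc hcd hδ hs1 h1 h2 h3

/-- Sorting four integers by absolute value. -/
lemma exists_sorted (w x y z : ℤ) : ∃ a b c d : ℤ, List.Perm [w, x, y, z] [a, b, c, d] ∧
    |a| ≤ |b| ∧ |b| ≤ |c| ∧ |c| ≤ |d| := by
  set l := [w, x, y, z].insertionSort (fun u v : ℤ => |u| ≤ |v|) with hl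
  have hp : List.Perm l [w, x, y, z] := List.perm_insertionSort _ _
  have hlen : l.length = 4 := by rw [hp.length_eq]; rfl
  have : Std.Total (fun u v : ℤ => |u| ≤ |v|) := ⟨fun u v => le_total |u| |v|⟩
  have : IsTrans ℤ (fun u v : ℤ => |u| ≤ |v|) := ⟨fun u v w h1 h2 => le_trans h1 h2⟩
  have hs : l.Pairwise (fun u v : ℤ => |u| ≤ |v|) := List.pairwise_insertionSort _ _
  match hm : l, hlen with
  | [a, b, c, d], _ =>
    refine ⟨a, b, c, d, hp.symm, ?_, ?_, ?_⟩
    · simp at hs; tauto
    · simp at hs; tauto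
    · simp at hs; tauto

/-- The polynomial form of the equation. -/
lemma eq_iff (w x y z : ℤ) (hw : w ≠ 0) (hx : x ≠ 0) (hy : y ≠ 0) (hz : z ≠ 0) :
    (1 / (w : ℚ) + 1 / (x : ℚ) + 1 / (y : ℚ) + 1 / (z : ℚ) + 1 / ((w : ℚ) * x * y * z) = 0) ↔
      x * y * z + w * y * z + w * x * z + w * x * y = -1 := by
  have hw' : (w : ℚ) ≠ 0 := by exact_mod_cast hw
  have hx' : (x : ℚ) ≠ 0 := by exact_mod_cast hx
  have hy' : (y : ℚ) ≠ 0 := by exact_mod_cast hy
  have hz' : (z : ℚ) ≠ 0 := by exact_mod_cast hz
  have h : 1 / (w : ℚ) + 1 / (x : ℚ) + 1 / (y : ℚ) + 1 / (z : ℚ) + 1 / ((w : ℚ) * x * y * z)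
      = ((x : ℚ) * y * z + w * y * z + w * x * z + w * x * y + 1) / (w * x * y * z) := by
    field_simp
  rw [h, div_eq_zero_iff]
  constructor
  · rintro (h1 | h1)
    · have h2 : x * y * z + w * y * z + w * x * z + w * x * y + 1 = 0 := by exact_mod_cast h1
      linarith
    · exfalso
      simp [hw', hx', hy', hz'] at h1
  · intro h1
    left
    have h2 : x * y * z + w * y * z + w * x * z + w * x * y + 1 = 0 := by linarith
    exact_mod_cast h2

lemma family_or_bound (w x y z : ℤ) (hw : w ≠ 0) (hx : x ≠ 0) (hy : y ≠ 0) (hz : z ≠ 0)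
    (h : x * y * z + w * y * z + w * x * z + w * x * y = -1) :
    InFamily w x y z ∨ (|x| ≤ bound |w| ∧ |y| ≤ bound |w| ∧ |z| ≤ bound |w|) := by
  obtain ⟨a, b, c, d, hp, hab, hbc, hcd⟩ := exists_sorted w x y z
  have hm : (([w, x, y, z] : List ℤ) : Multiset ℤ) = (([a, b, c, d] : List ℤ) : Multiset ℤ) :=
    Multiset.coe_eq_coe.mpr hp
  have he : b * c * d + a * c * d + a * b * d + a * b * c = -1 := by
    rw [← esymm_three_list, ← hm, esymm_three_list]
    linarith
  have hmem : ∀ v, v ∈ [w, x, y, z] → v ≠ 0 := by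
    intro v hv
    simp only [List.mem_cons, List.not_mem_nil, or_false] at hv
    rcases hv with rfl | rfl | rfl | rfl <;> assumption
  have hmem2 : ∀ v, v ∈ [w, x, y, z] → |a| ≤ |v| ∧ |v| ≤ |d| := by
    intro v hv
    have hv' : v ∈ [a, b, c, d] := hp.mem_iff.mp hv
    simp only [List.mem_cons, List.not_mem_nil, or_false] at hv'
    rcases hv' with rfl | rfl | rfl | rfl <;> constructor <;> omega
  have ha : a ≠ 0 := by
    apply hmem a
    exact hp.mem_iff.mpr (by simp)
  rcases sorted_case a b c d ha hab hbc hcd he with ⟨t, ht⟩ | hb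
  · left
    exact ⟨t, hp.trans ht⟩
  · right
    have hw1 := hmem2 w (by simp)
    have hx1 := hmem2 x (by simp)
    have hy1 := hmem2 y (by simp)
    have hz1 := hmem2 z (by simp)
    have hbb : bound |a| ≤ bound |w| := bound_mono (abs_nonneg a) hw1.1
    refine ⟨?_, ?_, ?_⟩ <;> linarith [hx1.2, hy1.2, hz1.2]

lemma family_sol (w x y z : ℤ) (h : InFamily w x y z) :
    x * y * z + w * y * z + w * x * z + w * x * y = -1 := by
  obtain ⟨t, ht⟩ := h
  have hm : (([w, x, y, z] : List ℤ) : Multiset ℤ) = (([1, -1, t, 1 - t] : List ℤ) : Multiset ℤ) :=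
    Multiset.coe_eq_coe.mpr ht
  have h1 := esymm_three_list w x y z
  rw [hm, esymm_three_list] at h1
  linarith

/-- **Description of all solutions.**

(1) A quadruple of nonzero integers is a solution of `1/w + 1/x + 1/y + 1/z + 1/(wxyz) = 0` iff
it is a permutation of some `(1, -1, t, 1 - t)`, or `w + x ≠ 0`, the numbers `x, y, z` are bounded
in absolute value by `bound |w| = q ^ 2 + q + 1` with `q = |w| (|w| + 1)`, and
`(w + x) y + w x`, `(w + x) z + w x` are complementary divisors of `(w x) ^ 2 - (w + x)`.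

(2) The bound is sharp: for every `m ≥ 1`, with `q = m (m + 1)`, the quadruple
`(m, -(m + 1), -(q + 1), -(q ^ 2 + q + 1))` is a solution which is not a permutation of any
`(1, -1, t, 1 - t)`. -/
theorem result :
    (∀ w x y z : ℤ, w ≠ 0 → x ≠ 0 → y ≠ 0 → z ≠ 0 →
      ((1 / (w : ℚ) + 1 / (x : ℚ) + 1 / (y : ℚ) + 1 / (z : ℚ)
          + 1 / ((w : ℚ) * x * y * z) = 0) ↔
        (InFamily w x y z ∨
          (w + x ≠ 0 ∧
            (∃ d e : ℤ, d * e = (w * x) ^ 2 - (w + x) ∧ (w + x) * y = d - w * x ∧
              (w + x) * z = e - w * x) ∧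
            |x| ≤ bound |w| ∧ |y| ≤ bound |w| ∧ |z| ≤ bound |w|)))) ∧
    (∀ m : ℤ, 1 ≤ m →
      (1 / (m : ℚ) + 1 / ((-(m + 1) : ℤ) : ℚ) + 1 / ((-(m * (m + 1) + 1) : ℤ) : ℚ)
          + 1 / ((-bound m : ℤ) : ℚ)
          + 1 / ((m : ℚ) * ((-(m + 1) : ℤ) : ℚ) * ((-(m * (m + 1) + 1) : ℤ) : ℚ)
            * ((-bound m : ℤ) : ℚ)) = 0) ∧
        ¬ InFamily m (-(m + 1)) (-(m * (m + 1) + 1)) (-bound m)) := by
  constructor
  · intro w x y z hw hx hy hz
    rw [eq_iff w x y z hw hx hy hz]
    constructor
    · intro h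
      rcases family_or_bound w x y z hw hx hy hz h with h1 | h1
      · exact Or.inl h1
      · by_cases hs : w + x = 0
        · left
          have hx' : x = -w := by linarith
          subst hx'
          have h2 : w * (w * (y + z)) = 1 := by nlinarith
          rcases Int.eq_one_or_neg_one_of_mul_eq_one h2 with h3 | h3
          · subst h3
            refine ⟨y, ?_⟩
            have : z = 1 - y := by linarith
            subst this
            exact List.Perm.refl _
          · subst h3
            refine ⟨y, ?_⟩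
            have : z = 1 - y := by linarith
            subst this
            exact List.Perm.swap _ _ _
        · right
          refine ⟨hs, ⟨(w + x) * y + w * x, (w + x) * z + w * x, ?_, by ring, by ring⟩, h1⟩
          have : ((w + x) * y + w * x) * ((w + x) * z + w * x)
              = (w * x) ^ 2 + (w + x) * (x * y * z + w * y * z + w * x * z + w * x * y) := by ring
          rw [this, h]; ring
    · rintro (h | ⟨hs, ⟨d, e, hde, hy', hz'⟩, -⟩)
      · exact family_sol w x y z h
      · have hd : d = (w + x) * y + w * x := by linarith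
        have he : e = (w + x) * z + w * x := by linarith
        rw [hd, he] at hde
        have h1 : (w + x) * (x * y * z + w * y * z + w * x * z + w * x * y + 1) = 0 := by
          linear_combination hde
        rcases mul_eq_zero.mp h1 with h2 | h2
        · exact absurd h2 hs
        · linarith
  · intro m hm
    have hq : 1 ≤ m * (m + 1) := by nlinarith
    have hb : 1 ≤ bound m := by
      unfold bound
      nlinarith [sq_nonneg (m * (m + 1))]
    constructor
    · rw [eq_iff m (-(m + 1)) (-(m * (m + 1) + 1)) (-bound m) (by omega) (by omega) (by omega)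
        (by omega)]
      unfold bound
      ring
    · rintro ⟨t, ht⟩
      have h1 : (-1 : ℤ) ∈ [m, -(m + 1), -(m * (m + 1) + 1), -bound m] :=
        ht.mem_iff.mpr (by simp)
      have hb2 : 2 ≤ bound m := by
        unfold bound
        nlinarith [sq_nonneg (m * (m + 1))]
      simp only [List.mem_cons, List.not_mem_nil, or_false] at h1
      rcases h1 with h1 | h1 | h1 | h1 <;> omega

end Pool.Agent.Results.MP_d45172_nt.SharpBoundOutsideFamily
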